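import Pool.Agent.H.MP_a29b63_ag.B

namespace Pool.Agent.Results.MP_9ec07c_ag.NotLinear
open MvPolynomial Pool.Agent.H.MP_a29b63_ag

universe u
variable {K : Type u} [Field K] {n : ℕ}

/-- `gr` is a grading of the OI-module `M`. -/
structure IsGrading (M : OIMod K) (gr : ∀ n, ℤ → AddSubgroup (M.obj n)) : Prop where
  internal : ∀ n, DirectSum.IsInternal (gr n)
  smul : ∀ n (d : ℕ) (j : ℤ) (p : P K n), p.IsHomogeneous d → ∀ v ∈ gr n j, p • v ∈ gr n (d + j)
  map : ∀ m n (ε : Fin m ↪o Fin n) (j : ℤ), ∀ v ∈ gr m j, M.map ε v ∈ gr n j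

section
variable {N : Type u} [AddCommGroup N] [Module (P K n) N]

/-- Koszul `i`-chains with coefficients in `A`. -/
def IsChain (A : AddSubgroup N) (i : ℕ) (c : Finset (Fin n) → N) : Prop :=
  ∀ T, c T ∈ A ∧ (T.card ≠ i → c T = 0)

/-- The Koszul differential. -/
noncomputable def kd (K : Type u) [Field K] [Module (P K n) N] (c : Finset (Fin n) → N)
    (T : Finset (Fin n)) : N :=
  ∑ k ∈ Tᶜ, ((-1) ^ (T.filter (· < k)).card * X k : P K n) • c (insert k T)

/-- `β_{i,j} ≠ 0`: the Koszul homology `H_i(x; N)_j = Tor_i(N, K)_j` is not zero. -/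
def Betti (K : Type u) [Field K] (n : ℕ) [Module (P K n) N] (gr : ℤ → AddSubgroup N) (i : ℕ)
    (j : ℤ) : Prop :=
  ∃ c : Finset (Fin n) → N, IsChain (gr (j - i)) i c ∧ kd K c = 0 ∧
    ¬ ∃ b, IsChain (gr (j - i - 1)) (i + 1) b ∧ kd K b = c

/-- `reg N = r`. -/
def IsReg (K : Type u) [Field K] (n : ℕ) [Module (P K n) N] (gr : ℤ → AddSubgroup N) (r : ℤ) :
    Prop :=
  IsGreatest {d | ∃ (i : ℕ) (j : ℤ), Betti K n gr i j ∧ d = j - i} r
end

noncomputable def gr (K : Type u) [Field K] (n : ℕ) (d : ℤ) : AddSubgroup (Ms K n) where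
  carrier := {w | (d ≠ 0 → ∀ j, w.1.1 j = 0) ∧ ∀ i (m : ℕ), (m : ℤ) ≠ d → (w.1.2 i).coeff m = 0}
  add_mem' ha hb := ⟨fun h j => by simp [ha.1 h, hb.1 h], fun i m h => by
    simp [ha.2 i m h, hb.2 i m h]⟩
  zero_mem' := ⟨fun _ _ => rfl, fun _ _ _ => rfl⟩
  neg_mem' {w} ha := ⟨fun h j => neg_eq_zero.2 (ha.1 h j), fun i m h => by
    change (-w.1.2 i).coeff m = 0
    simp [ha.2 i m h]⟩

theorem M_ext {v w : Ms K n} (h1 : ∀ j, v.1.1 j = w.1.1 j)
    (h2 : ∀ j m, (v.1.2 j).coeff (m + 1) = (w.1.2 j).coeff (m + 1)) : v = w := by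
  refine Subtype.ext (W_ext h1 fun j => Polynomial.ext fun m => ?_)
  rcases m with _ | m
  · rw [v.2, w.2, funext h1]
  · exact h2 j m

noncomputable def cp0 (d : ℤ) (w : Ms K n) : Ms K n :=
  ⟨(fun j => if d = 0 then w.1.1 j else 0,
      fun i => if 0 ≤ d then Polynomial.monomial d.toNat ((w.1.2 i).coeff d.toNat) else 0),
    fun i => by
      by_cases h : d = 0
      · simp [h, w.2 i]
      · simp only [h, if_false]
        split_ifs with h1
        · simp [S, Polynomial.coeff_monomial, show d.toNat ≠ 0 by omega]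
        · simp [S]⟩

theorem cp01 (d : ℤ) (w : Ms K n) (j : Fin n) : (cp0 d w).1.1 j = if d = 0 then w.1.1 j else 0 :=
  rfl

theorem cp02 (d : ℤ) (w : Ms K n) (j : Fin n) (m : ℕ) :
    ((cp0 d w).1.2 j).coeff m = if (m : ℤ) = d then (w.1.2 j).coeff m else 0 := by
  change (if 0 ≤ d then Polynomial.monomial d.toNat ((w.1.2 j).coeff d.toNat) else 0).coeff m = _
  split_ifs with h1 h2 h2
  · simp [← h2]
  · simp [Polynomial.coeff_monomial, show d.toNat ≠ m by omega]
  · omega
  · simp

noncomputable def cp (d : ℤ) : Ms K n →+ gr K n d :=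
  AddMonoidHom.mk' (fun w => ⟨cp0 d w, fun h j => by rw [cp01, if_neg h], fun i m h => by
    rw [cp02, if_neg h]⟩) fun v w => Subtype.ext (M_ext (fun j => by
      simp only [AddSubgroup.coe_add, Submodule.coe_add, add1, cp01]
      split_ifs <;> simp) fun j m => by
        simp only [AddSubgroup.coe_add, Submodule.coe_add, add2, cp02, Polynomial.coeff_add]
        split_ifs <;> simp)

theorem cp1 (d : ℤ) (w : Ms K n) (j : Fin n) : (cp d w).1.1.1 j = if d = 0 then w.1.1 j else 0 :=
  rfl

theorem cp2 (d : ℤ) (w : Ms K n) (j : Fin n) (m : ℕ) :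
    ((cp d w).1.1.2 j).coeff m = if (m : ℤ) = d then (w.1.2 j).coeff m else 0 := cp02 d w j m

theorem internal : DirectSum.IsInternal (gr K n) := by
  have h1 : ∀ (d : ℤ) (x : DirectSum ℤ fun d => gr K n d),
      cp d (DirectSum.coeAddMonoidHom (gr K n) x) = x d := by
    intro d x
    induction x using DirectSum.induction_on with
    | zero => simp
    | add x y hx hy => simp [hx, hy]
    | of e x =>
      rw [DirectSum.coeAddMonoidHom_of]
      by_cases h : e = d
      · subst h
        rw [DirectSum.of_eq_same]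
        refine Subtype.ext (M_ext (fun j => ?_) fun j m => ?_)
        · rw [cp1]; split_ifs with h; exacts [rfl, (x.2.1 h j).symm]
        · rw [cp2]; split_ifs with h; exacts [rfl, (x.2.2 j _ h).symm]
      · rw [DirectSum.of_eq_of_ne _ _ _ (Ne.symm h)]
        refine Subtype.ext (M_ext (fun j => ?_) fun j m => ?_)
        · rw [cp1]; split_ifs with h1; exacts [x.2.1 (by omega) j, rfl]
        · rw [cp2]; split_ifs with h1; exacts [x.2.2 j _ (by omega), rfl]
  refine ⟨fun x y h => DirectSum.ext fun d => by rw [← h1, h, h1], fun w => ?_⟩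
  let D := Finset.univ.sup fun i => (w.1.2 i).natDegree
  refine ⟨∑ d ∈ Finset.range (D + 1), DirectSum.of (fun d => gr K n d) (d : ℤ) (cp d w), ?_⟩
  simp only [map_sum, DirectSum.coeAddMonoidHom_of]
  refine M_ext (fun j => ?_) fun j m => ?_
  · simp [sum1, cp1]
  · simp only [Submodule.coe_sum, sum2, Polynomial.finsetSum_coeff, cp2, Nat.cast_inj]
    rw [Finset.sum_ite_eq]
    split_ifs with h
    · rfl
    · have : (w.1.2 j).natDegree ≤ D :=
        Finset.le_sup (f := fun i => (w.1.2 i).natDegree) (Finset.mem_univ j)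
      exact (Polynomial.coeff_eq_zero_of_natDegree_lt (by simp at h; omega)).symm

theorem pr_hom {d : ℕ} {p : P K n} (hp : p.IsHomogeneous d) (i : Fin n) :
    ∃ b, pr i p = Polynomial.C b * Polynomial.X ^ d := by
  have h : pr (K := K) i = aeval fun k => Polynomial.C (if k = i then (1 : K) else 0) *
      Polynomial.X := MvPolynomial.algHom_ext fun k => by rw [pr_X]; split_ifs with h <;> simp [h]
  refine ⟨∑ s ∈ p.support, coeff s p * ∏ k ∈ s.support, (if k = i then (1 : K) else 0) ^ s k, ?_⟩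
  conv_lhs => rw [h, p.as_sum]
  rw [map_sum, map_sum, Finset.sum_mul]
  refine Finset.sum_congr rfl fun s hs => ?_
  rw [aeval_monomial, hp.degree_eq_sum_deg_support hs, Finsupp.prod]
  simp only [mul_pow, Finset.prod_mul_distrib, Finset.prod_pow_eq_pow_sum, map_mul, map_prod,
    map_pow, Polynomial.algebraMap_eq, mul_assoc]

theorem grading : IsGrading (MM K) (gr K) := by
  refine ⟨fun n => internal, fun n d j p hp (v : Ms K n) hv => ⟨fun h k => ?_, fun i m h => ?_⟩,
    fun m n ε j (v : Ms K m) hv => ⟨fun h k => ?_, fun i l h => ?_⟩⟩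
  · change constantCoeff p * v.1.1 k = 0
    by_cases h1 : j = 0
    · rw [constantCoeff_eq, hp.coeff_eq_zero (by simp; omega), zero_mul]
    · rw [hv.1 h1, mul_zero]
  · change (pr i p * v.1.2 i).coeff m = 0
    obtain ⟨b, hb⟩ := pr_hom hp i
    rw [hb, mul_assoc, Polynomial.coeff_C_mul, Polynomial.coeff_X_pow_mul']
    split_ifs with h1
    · rw [hv.2 _ _ (by omega), mul_zero]
    · exact mul_zero _
  · change ex ε v.1.1 k = 0
    by_cases h1 : ∃ i, ε i = k
    · obtain ⟨i, rfl⟩ := h1; rw [ex_in, hv.1 h]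
    · exact ex_out _ _ h1
  · change ((mp ε v.1).2 i).coeff l = 0
    by_cases h1 : ∃ k, ε k = i
    · obtain ⟨k, rfl⟩ := h1; rw [mp_in _ v.2, hv.2 _ _ h]
    · rw [mp_out _ _ h1, Polynomial.coeff_C]
      split_ifs with h2
      · simp [hv.1 (by omega)]
      · rfl

theorem kd1 (c : Finset (Fin n) → Ms K n) (T : Finset (Fin n)) (j : Fin n) :
    (kd K c T).1.1 j = 0 := by
  simp [kd, sum1]

theorem kd2 (c : Finset (Fin n) → Ms K n) (T : Finset (Fin n)) (j : Fin n) (m : ℕ) :
    ((kd K c T).1.2 j).coeff (m + 1) = if j ∈ T then 0 else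
      (-1) ^ (T.filter (· < j)).card * ((c (insert j T)).1.2 j).coeff m := by
  simp only [kd, Submodule.coe_sum, sum2, Submodule.coe_smul, smul2, map_mul, map_pow, map_neg,
    map_one, pr_X, mul_ite, ite_mul, mul_zero, zero_mul, Finset.sum_ite_eq', Finset.mem_compl]
  by_cases h : j ∈ T
  · simp [h]
  · simp only [h, not_false_iff, if_true, if_false, mul_assoc]
    rw [← Polynomial.C_1, ← map_neg, ← map_pow, Polynomial.coeff_C_mul, Polynomial.coeff_X_mul]

theorem upper (i : ℕ) (j : ℤ) (h : Betti K n (gr K n) i j) : j - i ≤ (n % 2 : ℕ) := by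
  by_contra h0
  obtain ⟨c, hc, h1, h2⟩ := h
  obtain ⟨d, hd⟩ : ∃ d : ℕ, j - i = d + 1 := ⟨(j - i - 1).toNat, by omega⟩
  rw [hd] at hc h0
  let a : Finset (Fin n) → Fin n → K := fun T l => if l ∈ T then
    (-1) ^ ((T.erase l).filter (· < l)).card * ((c (T.erase l)).1.2 l).coeff (d + 1) else 0
  have h3 : ∀ T, ∃ u : Fin n → K, (d ≠ 0 → u = 0) ∧ (d = 0 → S u = a T) ∧ (a T = 0 → u = 0) := by
    intro T
    by_cases h : d = 0
    · have hn : Even n := by rw [Nat.even_iff]; omega
      obtain ⟨u, hu⟩ := S_surj hn (a T)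
      exact ⟨u, fun h' => absurd h h', fun _ => hu, fun h' => S_inj hn (congrFun (hu.trans h'))⟩
    · exact ⟨0, fun _ => rfl, fun h' => absurd h' h, fun _ => rfl⟩
  choose u u1 u2 u3 using h3
  let b : Finset (Fin n) → Ms K n := fun T => ⟨(u T, fun l => Polynomial.monomial d (a T l)),
    fun l => by
      by_cases h : d = 0
      · simp [u2 T h, h]
      · simp [u1 T h, S, Polynomial.coeff_monomial, h]⟩
  have b1 : ∀ T, (b T).1.1 = u T := fun _ => rfl
  have b2 : ∀ T l, (b T).1.2 l = Polynomial.monomial d (a T l) := fun _ _ => rfl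
  refine h2 ⟨b, fun T => ⟨⟨fun h k => ?_, fun l m h => ?_⟩, fun h => ?_⟩, funext fun T => ?_⟩
  · rw [b1, u1 T (by omega)]; rfl
  · rw [b2, Polynomial.coeff_monomial, if_neg (by omega)]
  · have : a T = 0 := funext fun l => by
      simp only [a]
      split_ifs with h4
      · rw [(hc _).2 (by rw [Finset.card_erase_of_mem h4]; have := Finset.card_pos.2 ⟨l, h4⟩; omega)]
        simp
      · rfl
    exact M_ext (fun k => by rw [b1, u3 T this]; rfl) fun k m => by simp [b2, this]
  · refine M_ext (fun k => by rw [kd1, (hc T).1.1 (by omega)]) fun k m => ?_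
    rw [kd2]
    split_ifs with h4
    · have h5 := kd2 c (T.erase k) k (m + 1)
      rw [h1, if_neg (Finset.notMem_erase _ _), Finset.insert_erase h4] at h5
      exact Eq.symm (by simpa using h5)
    · rw [b2, Polynomial.coeff_monomial]
      split_ifs with h5
      · simp only [a, Finset.mem_insert_self, if_true, Finset.erase_insert h4, ← mul_assoc,
          ← mul_pow, h5]
        simp
      · rw [mul_zero, (hc T).1.2 _ _ (by omega)]

theorem b0 (hn : 0 < n) : Betti K n (gr K n) 0 0 := by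
  let w : Ms K n := ⟨(1, fun i => Polynomial.C (S 1 i)), fun i => by simp⟩
  refine ⟨fun T => if T = ∅ then w else 0, fun T => ⟨?_, fun h => if_neg fun e => h (by simp [e])⟩,
    funext fun T => by simp [kd], ?_⟩
  · dsimp only
    split_ifs
    · exact ⟨fun h => absurd (by simp) h, fun i m h => Polynomial.coeff_C_of_ne_zero (by omega)⟩
    · exact zero_mem _
  · rintro ⟨b, -, h⟩
    have := kd1 b ∅ ⟨0, hn⟩
    rw [h] at this
    exact one_ne_zero this

theorem b1 (hn : Odd n) : Betti K n (gr K n) (n - 1) n := by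
  have h0 := hn.pos
  let z : Fin n := ⟨0, h0⟩
  let w : Ms K n := ⟨(0, Pi.single z Polynomial.X), fun i => by
    simp only [Pi.single_apply]; split_ifs <;> simp [S]⟩
  have w2 : ∀ i, w.1.2 i = if i = z then Polynomial.X else 0 := fun i => Pi.single_apply _ _ _
  refine ⟨fun T => if T = Finset.univ.erase z then w else 0,
    fun T => ⟨?_, fun h => if_neg fun e => h (by simp [e])⟩, funext fun T => ?_, ?_⟩
  · dsimp only
    split_ifs
    · refine ⟨fun _ _ => rfl, fun i m h => ?_⟩
      rw [w2]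
      split_ifs
      · exact Polynomial.coeff_X_of_ne_one (by omega)
      · rfl
    · exact zero_mem _
  · refine M_ext (fun k => kd1 _ _ _) fun k m => ?_
    rw [kd2]
    split_ifs with h1 h2
    · rfl
    · rw [w2, if_neg]
      · simp
      · rintro rfl
        simpa [h2] using Finset.mem_insert_self z T
    · simp
  · rintro ⟨b, -, h⟩
    set u := (b Finset.univ).1.1
    have h1 : ∀ k, (-1) ^ ((Finset.univ.erase k).filter (· < k)).card * S u k =
        if k = z then 1 else 0 := fun k => by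
      have := kd2 b (Finset.univ.erase k) k 0
      rw [h, if_neg (Finset.notMem_erase _ _), Finset.insert_erase (Finset.mem_univ _),
        (b Finset.univ).2 k] at this
      rw [← this]
      by_cases e : k = z
      · simp [e, w2]
      · beta_reduce
        rw [if_neg e, if_neg]
        · rfl
        · exact fun e' => e ((Finset.erase_inj _ (Finset.mem_univ _)).1 e')
    have h2 : ∑ k : Fin n, (-1 : K) ^ (k : ℕ) * S u k = 0 := by
      simp only [S, Finset.mul_sum]
      rw [Finset.sum_comm]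
      refine Finset.sum_eq_zero fun j _ => ?_
      have := S_ker (K := K) hn j
      rw [S] at this
      rw [← neg_eq_zero, ← Finset.sum_neg_distrib, ← zero_mul (u j), ← this, Finset.sum_mul]
      refine Finset.sum_congr rfl fun k _ => ?_
      have : sg K j k = -sg K k j := by
        simp only [sg]; split_ifs <;> first | omega | simp
      rw [this]; ring
    rw [Finset.sum_eq_single z] at h2
    · have := h1 z
      rw [if_pos rfl, (mul_eq_zero.1 h2).resolve_left (by simp), mul_zero] at this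
      exact zero_ne_one this
    · intro k _ e
      have := h1 k
      rw [if_neg e] at this
      rw [(mul_eq_zero.1 this).resolve_left (by simp), mul_zero]
    · simp

theorem result (K : Type u) [Field K] :
    ∃ (M : OIMod K) (gr : ∀ n, ℤ → AddSubgroup (M.obj n)), IsGrading M gr ∧
      (∃ G, G.Finite ∧ M.Generates G ∧ ∀ g ∈ G, ∃ j, g.2 ∈ gr g.1 j) ∧
      (∀ n ≥ 1, IsReg K n (gr n) (n % 2 : ℕ)) ∧
      ¬ ∃ (a b : ℤ) (N : ℕ), ∀ n ≥ N, IsReg K n (gr n) (a * n + b) := by
  have h1 : ∀ n ≥ 1, IsReg K n (gr K n) (n % 2 : ℕ) := fun n hn => by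
    refine ⟨?_, by rintro _ ⟨i, j, h, rfl⟩; exact upper i j h⟩
    rcases Nat.even_or_odd n with h | h
    · exact ⟨0, 0, b0 hn, by rw [Nat.even_iff] at h; simp [h]⟩
    · exact ⟨n - 1, n, b1 h, by rw [Nat.odd_iff] at h; omega⟩
  refine ⟨MM K, gr K, grading, ⟨_, Set.toFinite _, MM_gen, ?_⟩, h1, ?_⟩
  · rintro _ (rfl | rfl)
    · exact ⟨0, fun h => absurd rfl h, fun _ _ _ => rfl⟩
    · exact ⟨1, fun _ _ => rfl, fun _ m h => Polynomial.coeff_X_of_ne_one (by omega)⟩
  · rintro ⟨a, b, N, h⟩
    have h2 : ∀ n ≥ N + 1, ((n % 2 : ℕ) : ℤ) = a * n + b := fun n hn =>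
      (h1 n (by omega)).unique (h n (by omega))
    have a1 := h2 (N + 1) le_rfl
    have a2 := h2 (N + 2) (by omega)
    have a3 := h2 (N + 3) (by omega)
    push_cast at a1 a2 a3
    have : a * (N + 2) = a * (N + 1) + a := by ring
    have : a * (N + 3) = a * (N + 1) + 2 * a := by ring
    omega

end Pool.Agent.Results.MP_9ec07c_ag.NotLinear
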